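import Pool.Agent.W434.BW.StmA
import Pool.Agent.W434.BW.Basic

/-! Project BW, subtask BW-Z2: no essential relations of arity at least 3 (doubling). -/

set_option autoImplicit false
set_option maxHeartbeats 4000000

namespace Pool.Agent.W85.BW
open Pool.Agent.W434.BW

variable {Ω : Type} {ar : Ω → ℕ} {X : Type} {a : Alg ar X} {C : Set X}

/-- step (1) -/
theorem noEss_ar {ι : Type} (T : Tm ar ι) (hT : AbsT a T C) (S : Set (ι → X)) :
    ¬ Ess a C ι S := by
  rintro ⟨h1, h2, h3⟩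
  choose s hs hs' using h3
  apply h2 (T.ev (piA a ι) s) (ev_mem h1 T s hs)
  intro j
  rw [ev_pi]
  exact hT j _ (fun i hi => hs' i j (fun h => hi h.symm))

/-- step (2) -/
theorem ess_restr (hC : Sub a C) {κ κ0 : Type} (_hne : Nonempty κ0) (f : κ0 → κ)
    (hf : Function.Injective f) (S : Set (κ → X)) (h : Ess a C κ S) :
    Ess a C κ0 {r | ∃ s ∈ S, (∀ j, j ∉ Set.range f → s j ∈ C) ∧ r = s ∘ f} := by
  obtain ⟨h1, h2, h3⟩ := h
  refine ⟨?_, ?_, ?_⟩
  · intro ω x hx
    choose s hs hs' hs'' using hx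
    refine ⟨piA a κ ω s, h1 ω s hs, ?_, ?_⟩
    · intro j hj
      exact hC ω _ (fun i => hs' i j hj)
    · funext j
      show a ω (fun i => x i j) = a ω (fun i => s i (f j))
      congr 1
      funext i
      rw [hs'' i]
      rfl
  · rintro r ⟨s, hs, hs', rfl⟩ hall
    apply h2 s hs
    intro j
    by_cases hj : j ∈ Set.range f
    · obtain ⟨i, rfl⟩ := hj
      exact hall i
    · exact hs' j hj
  · intro i
    obtain ⟨s, hs, hs'⟩ := h3 (f i)
    refine ⟨s ∘ f, ⟨s, hs, ?_, rfl⟩, ?_⟩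
    · intro j hj
      apply hs' j
      rintro rfl
      exact hj ⟨i, rfl⟩
    · intro j hj
      exact hs' (f j) (fun h => hj (hf h))

/-- extension by a value at `i0` -/
noncomputable def ext {κ : Type} (i0 : κ) (z : X) (s : {j : κ // j ≠ i0} → X) : κ → X := by
  classical
  exact fun i => if h : i = i0 then z else s ⟨i, h⟩

theorem ext_self {κ : Type} (i0 : κ) (z : X) (s : {j : κ // j ≠ i0} → X) : ext i0 z s i0 = z := by
  simp [ext]

theorem ext_ne {κ : Type} (i0 : κ) (z : X) (s : {j : κ // j ≠ i0} → X) (i : κ) (h : i ≠ i0) :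
    ext i0 z s i = s ⟨i, h⟩ := by
  simp [ext, h]

theorem ext_restr {κ : Type} (i0 : κ) (s : κ → X) : ext i0 (s i0) (fun j => s j.1) = s := by
  funext i
  by_cases h : i = i0
  · subst h
    rw [ext_self]
  · rw [ext_ne _ _ _ _ h]

theorem ext_op {κ : Type} (i0 : κ) (ω : Ω) (z : Fin (ar ω) → X)
    (s : Fin (ar ω) → {j : κ // j ≠ i0} → X) :
    ext i0 (a ω z) (fun j => a ω (fun i => s i j)) = piA a κ ω (fun i => ext i0 (z i) (s i)) := by
  funext j
  show _ = a ω (fun i => ext i0 (z i) (s i) j)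
  by_cases h : j = i0
  · subst h
    rw [ext_self]
    congr 1
    funext i
    rw [ext_self]
  · rw [ext_ne _ _ _ _ h]
    congr 1
    funext i
    rw [ext_ne _ _ _ _ h]

/-- step (3) and (4): doubling -/
theorem double [Finite X] (ha : Idem a) (hC : Sub a C)
    (hZ : ∀ x, x ∉ C →
      (x, x) ∉ Sg (prodA a a) {p : X × X | (p.1 = x ∧ p.2 ∈ C) ∨ (p.1 ∈ C ∧ p.2 = x)})
    {κ : Type} (i0 : κ) (S : Set (κ → X)) (h : Ess a C κ S) :
    ∃ S2 : Set ({j : κ // j ≠ i0} ⊕ {j : κ // j ≠ i0} → X),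
      Ess a C ({j : κ // j ≠ i0} ⊕ {j : κ // j ≠ i0}) S2 := by
  obtain ⟨h1, h2, h3⟩ := h
  obtain ⟨Z, hZdef⟩ : ∃ Z : Set X, Z = {z | ∃ s ∈ S, (∀ j, j ≠ i0 → s j ∈ C) ∧ s i0 = z} := ⟨_, rfl⟩
  have hZne : Z.Nonempty := by
    obtain ⟨s, hs, hs'⟩ := h3 i0
    rw [hZdef]
    exact ⟨s i0, s, hs, hs', rfl⟩
  have hZsub : Sub a Z := by
    intro ω x hx
    rw [hZdef] at hx ⊢
    choose s hs hs' hs'' using hx
    refine ⟨piA a κ ω s, h1 ω s hs, fun j hj => hC ω _ (fun i => hs' i j hj), ?_⟩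
    show a ω (fun i => s i i0) = a ω x
    congr 1
    funext i
    exact hs'' i
  have hZC : ∀ z ∈ Z, z ∉ C := by
    intro z hz hzC
    rw [hZdef] at hz
    obtain ⟨s, hs, hs', rfl⟩ := hz
    apply h2 s hs
    intro j
    by_cases hj : j = i0
    · subst hj
      exact hzC
    · exact hs' j hj
  -- generated subuniverse
  obtain ⟨U, hU⟩ : ∃ U : X → Set X, U = fun z => Sg a (C ∪ {z}) := ⟨_, rfl⟩
  have hUsub : ∀ z, Sub a (U z) := by
    intro z
    rw [hU]
    exact sub_Sg a _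
  have hUC : ∀ z, C ⊆ U z := by
    intro z
    rw [hU]
    exact fun x hx => subset_Sg a _ (Or.inl hx)
  have hUz : ∀ z, z ∈ U z := by
    intro z
    rw [hU]
    exact subset_Sg a _ (Or.inr rfl)
  have hUle : ∀ z z', z ∈ U z' → U z ⊆ U z' := by
    intro z z' hz
    have h4 : C ∪ {z} ⊆ U z' := by
      rintro x (hx | hx)
      · exact hUC z' hx
      · rw [Set.mem_singleton_iff] at hx
        rw [hx]
        exact hz
    have h5 := Sg_le (hUsub z') h4
    have h6 : U z = Sg a (C ∪ {z}) := by rw [hU]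
    rw [h6]
    exact h5
  -- minimal z0
  obtain ⟨z0, hz0, hmin⟩ : ∃ z0 ∈ Z, ∀ z ∈ Z, (Z ∩ U z0).ncard ≤ (Z ∩ U z).ncard := by
    obtain ⟨z0, hz0, hm⟩ := Set.exists_min_image Z (fun z => (Z ∩ U z).ncard) (Set.toFinite Z) hZne
    exact ⟨z0, hz0, hm⟩
  have hkey : ∀ z, z ∈ Z → z ∈ U z0 → z0 ∈ U z := by
    intro z hz hz'
    have h4 : Z ∩ U z ⊆ Z ∩ U z0 := fun x hx => ⟨hx.1, hUle z z0 hz' hx.2⟩
    have h5 : Z ∩ U z = Z ∩ U z0 :=
      Set.eq_of_subset_of_ncard_le h4 (hmin z hz) (Set.toFinite _)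
    have h6 : z0 ∈ Z ∩ U z0 := ⟨hz0, hUz z0⟩
    rw [← h5] at h6
    exact h6.2
  obtain ⟨Q, hQ⟩ : ∃ Q : Set (X × X), Q = Sg (prodA a a)
      {p : X × X | (p.1 = z0 ∧ p.2 ∈ C) ∨ (p.1 ∈ C ∧ p.2 = z0)} := ⟨_, rfl⟩
  have hQsub : Sub (prodA a a) Q := by
    rw [hQ]
    exact sub_Sg _ _
  have hQ1 : ∀ c ∈ C, (z0, c) ∈ Q := by
    intro c hc
    rw [hQ]
    exact subset_Sg _ _ (Or.inl ⟨rfl, hc⟩)
  have hQ2 : ∀ c ∈ C, (c, z0) ∈ Q := by
    intro c hc
    rw [hQ]
    exact subset_Sg _ _ (Or.inr ⟨hc, rfl⟩)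
  have hQ00 : (z0, z0) ∉ Q := by
    rw [hQ]
    exact hZ z0 (hZC z0 hz0)
  have hclaim : ∀ z z', z ∈ Z → z ∈ U z0 → z' ∈ Z → z' ∈ U z0 → (z, z') ∉ Q := by
    intro z z' hz hzU hz' hzU' hmem
    classical
    -- first step: find w in Z0 with (z0,w) in Q
    obtain ⟨w, hwZ, hwU, hwQ⟩ : ∃ w, w ∈ Z ∧ w ∈ U z0 ∧ (z0, w) ∈ Q := by
      have h4 := hkey z hz hzU
      rw [hU] at h4
      obtain ⟨t, ht⟩ := h4
      have ht' : t.ev a (fun g : ↥(C ∪ {z} : Set X) => (g : X)) = z0 := ht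
      obtain ⟨v, hv⟩ : ∃ v : ↥(C ∪ {z} : Set X) → X,
          v = fun g : ↥(C ∪ {z} : Set X) => if (g : X) ∈ C then z0 else z' := ⟨_, rfl⟩
      have hv1 : ∀ g, v g = z0 ∨ v g = z' := by
        intro g
        rw [hv]
        by_cases hg : (g : X) ∈ C
        · left
          simp [hg]
        · right
          simp [hg]
      refine ⟨t.ev a v, ?_, ?_, ?_⟩
      · apply ev_mem hZsub
        intro g
        rcases hv1 g with hg | hg
        · rw [hg]
          exact hz0
        · rw [hg]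
          exact hz'
      · apply ev_mem (hUsub z0)
        intro g
        rcases hv1 g with hg | hg
        · rw [hg]
          exact hUz z0
        · rw [hg]
          exact hzU'
      · have h5 := ev_mem hQsub t (fun g : ↥(C ∪ {z} : Set X) => ((g : X), v g)) (by
          intro g
          show ((g : X), v g) ∈ Q
          by_cases hg : (g : X) ∈ C
          · have : v g = z0 := by
              rw [hv]
              simp [hg]
            rw [this]
            exact hQ2 _ hg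
          · have h6 : v g = z' := by
              rw [hv]
              simp [hg]
            have h7 : (g : X) = z := by
              rcases g.2 with hg' | hg'
              · exact absurd hg' hg
              · exact hg'
            rw [h6, h7]
            exact hmem)
        rw [ev_prod] at h5
        have h6 : t.ev a (fun g : ↥(C ∪ {z} : Set X) => (g : X)) = z0 := ht'
        simp only at h5
        rw [h6] at h5
        exact h5
    have h4 := hkey w hwZ hwU
    rw [hU] at h4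
    obtain ⟨t, ht⟩ := h4
    have ht' : t.ev a (fun g : ↥(C ∪ {w} : Set X) => (g : X)) = z0 := ht
    have h5 := ev_mem hQsub t (fun g : ↥(C ∪ {w} : Set X) => (z0, (g : X))) (by
      intro g
      show (z0, (g : X)) ∈ Q
      rcases g.2 with hg | hg
      · exact hQ1 _ hg
      · have h7 : (g : X) = w := hg
        rw [h7]
        exact hwQ)
    rw [ev_prod] at h5
    simp only at h5
    rw [ht', ev_idem ha] at h5
    exact hQ00 h5
  -- the doubled relation
  refine ⟨{s | ∃ z z', z ∈ U z0 ∧ z' ∈ U z0 ∧ (z, z') ∈ Q ∧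
    ext i0 z (fun j => s (Sum.inl j)) ∈ S ∧ ext i0 z' (fun j => s (Sum.inr j)) ∈ S}, ?_, ?_, ?_⟩
  · intro ω x hx
    choose z z' hz hz' hzz hs hs' using hx
    refine ⟨a ω z, a ω z', hUsub z0 ω z hz, hUsub z0 ω z' hz', ?_, ?_, ?_⟩
    · exact hQsub ω (fun i => (z i, z' i)) hzz
    · have := h1 ω _ hs
      rw [← ext_op] at this
      exact this
    · have := h1 ω _ hs'
      rw [← ext_op] at this
      exact this
  · rintro s ⟨z, z', hz, hz', hzz, hs, hs'⟩ hall
    refine hclaim z z' ?_ hz ?_ hz' hzz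
    · rw [hZdef]
      refine ⟨_, hs, ?_, ext_self _ _ _⟩
      intro j hj
      rw [ext_ne _ _ _ _ hj]
      exact hall _
    · rw [hZdef]
      refine ⟨_, hs', ?_, ext_self _ _ _⟩
      intro j hj
      rw [ext_ne _ _ _ _ hj]
      exact hall _
  · have hz0' := hz0
    rw [hZdef] at hz0'
    obtain ⟨s2, hs2, hs2', hs2''⟩ := hz0'
    rintro (j | j)
    · obtain ⟨s1, hs1, hs1'⟩ := h3 j.1
      have hc : s1 i0 ∈ C := hs1' i0 (fun h => j.2 h.symm)
      refine ⟨Sum.elim (fun j => s1 j.1) (fun j => s2 j.1),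
        ⟨s1 i0, z0, hUC z0 hc, hUz z0, hQ2 _ hc, ?_, ?_⟩, ?_⟩
      · show ext i0 (s1 i0) (fun j => s1 j.1) ∈ S
        rw [ext_restr]
        exact hs1
      · show ext i0 z0 (fun j => s2 j.1) ∈ S
        rw [← hs2'', ext_restr]
        exact hs2
      · rintro (j' | j') hj'
        · show s1 j'.1 ∈ C
          apply hs1'
          intro h
          apply hj'
          rw [Subtype.ext h]
        · show s2 j'.1 ∈ C
          exact hs2' _ j'.2
    · obtain ⟨s1, hs1, hs1'⟩ := h3 j.1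
      have hc : s1 i0 ∈ C := hs1' i0 (fun h => j.2 h.symm)
      refine ⟨Sum.elim (fun j => s2 j.1) (fun j => s1 j.1),
        ⟨z0, s1 i0, hUz z0, hUC z0 hc, hQ1 _ hc, ?_, ?_⟩, ?_⟩
      · show ext i0 z0 (fun j => s2 j.1) ∈ S
        rw [← hs2'', ext_restr]
        exact hs2
      · show ext i0 (s1 i0) (fun j => s1 j.1) ∈ S
        rw [ext_restr]
        exact hs1
      · rintro (j' | j') hj'
        · show s2 j'.1 ∈ C
          exact hs2' _ j'.2
        · show s1 j'.1 ∈ C
          apply hs1'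
          intro h
          apply hj'
          rw [Subtype.ext h]

theorem z2 : S_z2 := by
  intro Ω ar X _ a C ι _ T ha hC hT hZ κ _ S hκ hS
  -- ι nonempty
  have hι : Nonempty ι := by
    by_contra hne
    rw [not_nonempty_iff] at hne
    have hsub : ∀ x y : X, x = y := by
      intro x y
      have h1 := ev_idem ha T x
      have h2 := ev_idem ha T y
      have h3 : (fun _ : ι => x) = (fun _ => y) := Subsingleton.elim _ _
      rw [h3, h2] at h1
      exact h1.symm
    have hκ' : 1 < Nat.card κ := by omega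
    obtain ⟨i, j, hij⟩ := (Finite.one_lt_card_iff_nontrivial.1 hκ').exists_pair_ne
    obtain ⟨s, hs, hs'⟩ := hS.2.2 i
    apply hS.2.1 s hs
    intro k
    rw [hsub (s k) (s j)]
    exact hs' j (fun h => hij h.symm)
  -- bound
  have hbd : ∀ (n : ℕ) (S : Set (Fin n → X)), Ess a C (Fin n) S → n < Nat.card ι := by
    intro n S hS
    by_contra hn
    push Not at hn
    have e : ι ≃ Fin (Nat.card ι) := Finite.equivFin ι
    let f : ι → Fin n := fun i => Fin.castLE hn (e i)
    have hf : Function.Injective f := by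
      intro i j hij
      exact e.injective (Fin.castLE_injective hn hij)
    exact noEss_ar T hT _ (ess_restr hC hι f hf S hS)
  -- the induction: arity n≥3 gives arity n+1
  have hstep : ∀ n : ℕ, 3 ≤ n → (∃ S : Set (Fin n → X), Ess a C (Fin n) S) →
      ∃ S : Set (Fin (n + 1) → X), Ess a C (Fin (n + 1)) S := by
    rintro n hn ⟨S, hS⟩
    have hn0 : 0 < n := by omega
    obtain ⟨S2, hS2⟩ := double ha hC hZ (⟨0, hn0⟩ : Fin n) S hS
    have hcard : n + 1 ≤ Nat.card ({j : Fin n // j ≠ ⟨0, hn0⟩} ⊕ {j : Fin n // j ≠ ⟨0, hn0⟩}) := by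
      rw [Nat.card_sum]
      have : Nat.card {j : Fin n // j ≠ ⟨0, hn0⟩} = n - 1 := by
        rw [Nat.card_eq_fintype_card]
        simp
      omega
    have e := Finite.equivFin ({j : Fin n // j ≠ ⟨0, hn0⟩} ⊕ {j : Fin n // j ≠ ⟨0, hn0⟩})
    let f : Fin (n + 1) → ({j : Fin n // j ≠ ⟨0, hn0⟩} ⊕ {j : Fin n // j ≠ ⟨0, hn0⟩}) :=
      fun i => e.symm (Fin.castLE hcard i)
    have hf : Function.Injective f := by
      intro i j hij
      exact Fin.castLE_injective hcard (e.symm.injective hij)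
    exact ⟨_, ess_restr hC ⟨0⟩ f hf S2 hS2⟩
  have hall : ∀ m : ℕ, ∃ S : Set (Fin (Nat.card κ + m) → X), Ess a C (Fin (Nat.card κ + m)) S := by
    intro m
    induction m with
    | zero =>
      have e := Finite.equivFin κ
      have hne : Nonempty (Fin (Nat.card κ + 0)) := ⟨⟨0, by omega⟩⟩
      exact ⟨_, ess_restr hC hne (fun i => e.symm i) e.symm.injective S hS⟩
    | succ m ih => exact hstep (Nat.card κ + m) (by omega) ih
  obtain ⟨S', hS'⟩ := hall (Nat.card ι)
  have := hbd _ S' hS'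
  omega

end Pool.Agent.W85.BW
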